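import Pool.Agent.Work.MP_659252_gt.SP.Defs

/-!
# Two families of cones of revolution about different axes.  Size: M.

`exM ε s = (1/2 + s) 1 - e eᵀ` with `e = (√3/2, ε/2, 0, ..., 0)`, `ε = ±1`, `0 < s < 1/4` (`d ≥ 1`).  So `Q (exM ε) s x y = (1/2 + s) (x ⬝ y) - (e ⬝ x) (e ⬝ y)`.
PROOFS.  `ex_Q`: expand the sums.  `e ⬝ e = 1`.  `ex_solid`: smooth (polynomial in `s`), symmetric; `pos`: `z 0 = 0`: `(e ⬝ z)² = (z 1)²/4 ≤ (z ⬝ z)/4 < (1/2 + s) z ⬝ z`; `dot (exM ε) = 1` (derivative), `Q (dot ..) s x x = x ⬝ x > 0`; solid: `Q s e e = 1/2 + s - 1 < 0` for `s < 1/4`.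
`ex_not`: `e₊ ⬝ e₋ = 3/4 - 1/4 = 1/2`: `Q (exM 1) s e₊ e₊ < 0` but `Q (exM (-1)) t e₊ e₊ = 1/2 + t - 1/4 > 0` for `t > 0`; and symmetrically.  So for all `s`, `t ∈ (0, 1/4)` the point `e₊` is in the cone of the first family and not in that of the second
one, and `e₋` the other way round: neither is contained in the other, and the cones are never equal.
-/

namespace Pool.Agent.Work.MP_659252_gt.SP

open scoped ContDiff Topology
open Pool.Agent.Work.MP_659252_gt.Z (V Ten val Tan InT)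
open Pool.Agent.Work.MP_659252_gt.Y (Path Q AX dot Nested lev conf)

variable {d : ℕ}

/-- The axis. -/
noncomputable def exE (d : ℕ) (ε : ℝ) : V d := fun i =>
  if i = 0 then √3 / 2 else if (i : ℕ) = 1 then ε / 2 else 0

/-- The family of cones of revolution about the axis `exE d ε`. -/
noncomputable def exM (d : ℕ) (ε : ℝ) : Path d := fun s i j =>
  (1 / 2 + s) * (if i = j then 1 else 0) - exE d ε i * exE d ε j

private theorem ex_Q (ε s : ℝ) (x y : V d) :
    Q (exM d ε) s x y = (1 / 2 + s) * ∑ i, x i * y i -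
      (∑ i, exE d ε i * x i) * ∑ j, exE d ε j * y j := by
  unfold Q exM
  rw [Finset.sum_mul_sum, Finset.mul_sum, ← Finset.sum_sub_distrib]
  refine Finset.sum_congr rfl fun i _ => ?_
  have h1 : ∑ j, ((1 / 2 + s) * (if i = j then 1 else 0) - exE d ε i * exE d ε j) * (x i * y j) =
      ∑ j, ((if i = j then (1 / 2 + s) * (x i * y j) else 0) -
        exE d ε i * x i * (exE d ε j * y j)) := by
    refine Finset.sum_congr rfl fun j _ => ?_
    split_ifs <;> ring
  rw [h1, Finset.sum_sub_distrib, Finset.sum_ite_eq]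
  simp

private theorem ex_sum {d' : ℕ} (ε : ℝ) (x : V (d' + 1)) :
    ∑ i, exE (d' + 1) ε i * x i = √3 / 2 * x 0 + ε / 2 * x 1 := by
  rw [Fin.sum_univ_succ, Fin.sum_univ_succ]
  have h1 : ∀ i : Fin d', exE (d' + 1) ε i.succ.succ = 0 := by
    intro i
    unfold exE
    rw [if_neg (Fin.succ_ne_zero _), if_neg]
    rw [Fin.val_succ, Fin.val_succ]
    omega
  have h2 : exE (d' + 1) ε 0 = √3 / 2 := by
    unfold exE
    rw [if_pos rfl]
  have h3 : exE (d' + 1) ε (Fin.succ 0) = ε / 2 := by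
    unfold exE
    rw [if_neg (Fin.succ_ne_zero _), if_pos]
    simp
  simp only [h1, h2, h3, zero_mul, Finset.sum_const_zero, add_zero]
  rfl

private theorem ex_ee {d' : ℕ} (ε η : ℝ) :
    ∑ i, exE (d' + 1) ε i * exE (d' + 1) η i = 3 / 4 + ε * η / 4 := by
  rw [ex_sum]
  have h2 : exE (d' + 1) η 0 = √3 / 2 := by
    unfold exE
    rw [if_pos rfl]
  have h3 : exE (d' + 1) η 1 = η / 2 := by
    unfold exE
    rw [if_neg (by simp), if_pos]
    simp
  have h4 : √3 * √3 = 3 := Real.mul_self_sqrt (by norm_num)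
  rw [h2, h3]
  linear_combination h4 / 4

private theorem sum_sq_pos {x : V d} (hx : x ≠ 0) : 0 < ∑ i, x i * x i := by
  obtain ⟨i, hi⟩ := Function.ne_iff.1 hx
  have hi' : x i ≠ 0 := hi
  exact Finset.sum_pos' (fun j _ => mul_self_nonneg _) ⟨i, Finset.mem_univ i, mul_self_pos.2 hi'⟩

theorem ex_solid (hd : 1 ≤ d) (ε : ℝ) (hε : ε = 1 ∨ ε = -1) : Solid (exM d ε) (1 / 4) := by
  obtain ⟨d', rfl⟩ : ∃ d', d = d' + 1 := ⟨d - 1, by omega⟩
  have hε2 : ε * ε = 1 := by
    rcases hε with h | h <;> rw [h] <;> norm_num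
  refine ⟨by norm_num, ⟨?_, ?_, ?_, ?_⟩, ?_⟩
  · intro i j
    have h1 : ContDiff ℝ ∞ (fun s => exM (d' + 1) ε s i j) := by
      unfold exM
      fun_prop
    exact h1.contDiffOn
  · intro s i j
    unfold exM
    by_cases h : i = j
    · rw [h]
    · rw [if_neg h, if_neg (Ne.symm h)]
      ring
  · intro s hs z hz h0
    rw [ex_Q, ex_sum, h0]
    have h1 := sum_sq_pos hz
    have h2 : z 1 * z 1 ≤ ∑ i, z i * z i :=
      Finset.single_le_sum (f := fun i => z i * z i) (fun i _ => mul_self_nonneg _)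
        (Finset.mem_univ 1)
    have h3 : (√3 / 2 * 0 + ε / 2 * z 1) * (√3 / 2 * 0 + ε / 2 * z 1) = z 1 * z 1 / 4 := by
      linear_combination (z 1 * z 1 / 4) * hε2
    rw [h3]
    have h4 := hs.1
    nlinarith
  · intro s hs x hx
    have h1 : ∀ i j, dot (exM (d' + 1) ε) s i j = if i = j then 1 else 0 := by
      intro i j
      show deriv (fun u => (1 / 2 + u) * (if i = j then (1 : ℝ) else 0) -
        exE (d' + 1) ε i * exE (d' + 1) ε j) s = _
      have h2 : HasDerivAt (fun u : ℝ => (1 / 2 + u) * (if i = j then (1 : ℝ) else 0) -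
          exE (d' + 1) ε i * exE (d' + 1) ε j) (1 * (if i = j then (1 : ℝ) else 0)) s :=
        (((hasDerivAt_id s).const_add (1 / 2)).mul_const _).sub_const _
      rw [h2.deriv, one_mul]
    have h2 : Q (dot (exM (d' + 1) ε)) s x x = ∑ i, x i * x i := by
      unfold Q
      refine Finset.sum_congr rfl fun i _ => ?_
      simp only [h1, ite_mul, one_mul, zero_mul, Finset.sum_ite_eq, Finset.mem_univ, if_true]
    rw [h2]
    exact sum_sq_pos hx
  · intro s hs
    refine ⟨exE (d' + 1) ε, ?_⟩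
    rw [ex_Q, ex_ee, hε2]
    have := hs.2
    linarith

theorem ex_not (hd : 1 ≤ d) (ε : ℝ) (hε : ε = 1 ∨ ε = -1) (s : ℝ) (hs : s ∈ Set.Ioo (0 : ℝ) (1 / 4)) (t : ℝ)
    (ht : t ∈ Set.Ioo (0 : ℝ) (1 / 4)) :
    Q (exM d ε) s (exE d ε) (exE d ε) < 0 ∧ 0 < Q (exM d (-ε)) t (exE d ε) (exE d ε) := by
  obtain ⟨d', rfl⟩ : ∃ d', d = d' + 1 := ⟨d - 1, by omega⟩
  have hε2 : ε * ε = 1 := by
    rcases hε with h | h <;> rw [h] <;> norm_num
  have hs2 := hs.2
  have ht1 := ht.1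
  constructor
  · rw [ex_Q, ex_ee, hε2]
    linarith
  · rw [ex_Q, ex_ee, ex_ee, hε2]
    have h1 : -ε * ε = -1 := by linear_combination -hε2
    rw [h1]
    linarith

end Pool.Agent.Work.MP_659252_gt.SP
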